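import Mathlib

set_option autoImplicit false
set_option linter.unusedVariables false

namespace Pool.Agent.DEQU

open MeasureTheory Set

theorem exists_fat : ∃ B : Set ℝ, IsClosed B ∧ interior B = ∅ ∧ B ⊆ Icc 0 1 ∧ 0 < volume B := by
  have h0 : volume (range ((↑) : ℚ → ℝ)) < 1 / 2 := by
    rw [(countable_range _).measure_zero]
    norm_num
  obtain ⟨U, hU1, hU2, hU3⟩ := Set.exists_isOpen_lt_of_lt _ _ h0
  refine ⟨Icc 0 1 \ U, isClosed_Icc.sdiff hU2, ?_, diff_subset, ?_⟩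
  · rw [interior_eq_empty_iff_dense_compl]
    refine Dense.mono ?_ (Rat.isDenseEmbedding_coe_real.dense)
    intro x hx
    rw [mem_compl_iff]
    intro h
    exact h.2 (hU1 hx)
  · have h1 : volume (Icc (0 : ℝ) 1) ≤ volume (Icc (0 : ℝ) 1 \ U) + volume U := by
      refine (measure_mono ?_).trans (measure_union_le _ _)
      intro x hx
      by_cases hxU : x ∈ U
      · exact Or.inr hxU
      · exact Or.inl ⟨hx, hxU⟩
    rw [Real.volume_Icc] at h1
    by_contra hcon
    have h2 : volume (Icc (0 : ℝ) 1 \ U) = 0 := le_antisymm (not_lt.1 hcon) (zero_le)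
    rw [h2, zero_add] at h1
    have h3 := lt_of_le_of_lt h1 hU3
    norm_num at h3

theorem preim (B : Set ℝ) (hB : IsClosed B) (hint : interior B = ∅) (f : ℝ → ℝ)
    (hf : Isometry f) : interior (f ⁻¹' B) = ∅ := by
  by_contra hcon
  obtain ⟨x, hx⟩ := nonempty_iff_ne_empty.2 hcon
  obtain ⟨ε, hε, hball⟩ := Metric.isOpen_iff.1 isOpen_interior x hx
  have hsub : Icc x (x + ε / 2) ⊆ f ⁻¹' B := by
    intro y hy
    apply interior_subset
    apply hball
    rw [Metric.mem_ball, Real.dist_eq, abs_of_nonneg (by linarith [hy.1])]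
    linarith [hy.2]
  have hpre : IsPreconnected (f '' Icc x (x + ε / 2)) :=
    isPreconnected_Icc.image f hf.continuous.continuousOn
  have h1 : f x ∈ f '' Icc x (x + ε / 2) := ⟨x, ⟨le_refl _, by linarith⟩, rfl⟩
  have h2 : f (x + ε / 2) ∈ f '' Icc x (x + ε / 2) := ⟨x + ε / 2, ⟨by linarith, le_refl _⟩, rfl⟩
  have h3 : f x ≠ f (x + ε / 2) := fun h => by
    have := hf.injective h
    linarith
  have key : ∀ a b : ℝ, a ∈ f '' Icc x (x + ε / 2) → b ∈ f '' Icc x (x + ε / 2) → a < b → False := by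
    intro a b ha hb hab
    have h4 : Icc a b ⊆ f '' Icc x (x + ε / 2) := hpre.Icc_subset ha hb
    have h5 : Ioo a b ⊆ B := by
      intro y hy
      obtain ⟨z, hz, rfl⟩ := h4 (Ioo_subset_Icc_self hy)
      exact hsub hz
    have h6 : Ioo a b ⊆ interior B := interior_maximal h5 isOpen_Ioo
    rw [hint] at h6
    have h7 : (a + b) / 2 ∈ Ioo a b := ⟨by linarith, by linarith⟩
    exact h6 h7
  rcases lt_or_gt_of_ne h3 with h | h
  · exact key _ _ h1 h2 h
  · exact key _ _ h2 h1 h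

theorem main :
    ¬ (∀ A B : Set ℝ, NullMeasurableSet A volume → NullMeasurableSet B volume →
      Bornology.IsBounded A → Bornology.IsBounded B → volume A = volume B →
      ∃ E₁ E₂ : Set ℝ, volume E₁ = 0 ∧ volume E₂ = 0 ∧
        ∃ (n : ℕ) (P : Fin n → Set ℝ) (f : Fin n → ℝ → ℝ),
          (∀ i, NullMeasurableSet (P i) volume) ∧
          (∀ i, Isometry (f i)) ∧
          Pairwise (fun i j => Disjoint (P i) (P j)) ∧
          Pairwise (fun i j => Disjoint (f i '' P i) (f j '' P j)) ∧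
          (⋃ i, P i) = A \ E₁ ∧
          (⋃ i, f i '' P i) = B \ E₂) := by
  intro H
  obtain ⟨B, hB, hint, hsub, hpos⟩ := exists_fat
  have hfin : volume B ≠ ⊤ := by
    refine ne_top_of_le_ne_top ?_ (measure_mono hsub)
    rw [Real.volume_Icc]
    exact ENNReal.ofReal_ne_top
  set m : ℝ := (volume B).toReal with hm
  have hm0 : 0 < m := ENNReal.toReal_pos hpos.ne' hfin
  have hvol : volume (Icc (0 : ℝ) m) = volume B := by
    rw [Real.volume_Icc, sub_zero, hm, ENNReal.ofReal_toReal hfin]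
  obtain ⟨E₁, E₂, hE₁, hE₂, n, P, f, hP, hf, -, -, hPA, hPB⟩ := H (Icc 0 m) B
    measurableSet_Icc.nullMeasurableSet hB.measurableSet.nullMeasurableSet
    (Metric.isBounded_Icc 0 m) ((Metric.isBounded_Icc 0 1).subset hsub) hvol
  have hdense : Dense (⋂ i, (f i ⁻¹' B)ᶜ) := by
    apply dense_iInter_of_isOpen
    · intro i
      exact (hB.preimage (hf i).continuous).isOpen_compl
    · intro i
      exact interior_eq_empty_iff_dense_compl.1 (preim B hB hint (f i) (hf i))
  have hopen : IsOpen (⋂ i, (f i ⁻¹' B)ᶜ) :=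
    isOpen_iInter_of_finite fun i => (hB.preimage (hf i).continuous).isOpen_compl
  have hne : (Ioo 0 m ∩ ⋂ i, (f i ⁻¹' B)ᶜ).Nonempty :=
    hdense.inter_open_nonempty _ isOpen_Ioo ⟨m / 2, by constructor <;> linarith⟩
  have hpos2 := (isOpen_Ioo.inter hopen).measure_pos volume hne
  have hsubE : Ioo 0 m ∩ ⋂ i, (f i ⁻¹' B)ᶜ ⊆ E₁ := by
    rintro x ⟨hx1, hx2⟩
    by_contra hxE
    have h1 : x ∈ Icc 0 m \ E₁ := ⟨Ioo_subset_Icc_self hx1, hxE⟩
    rw [← hPA] at h1
    obtain ⟨i, hi⟩ := mem_iUnion.1 h1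
    have h2 : f i x ∈ ⋃ i, f i '' P i := mem_iUnion.2 ⟨i, x, hi, rfl⟩
    rw [hPB] at h2
    exact (mem_iInter.1 hx2 i) h2.1
  exact hpos2.ne' (measure_mono_null hsubE hE₁)

end Pool.Agent.DEQU
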